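import Pool.Agent.Y166.CS.Stm3

set_option autoImplicit false

namespace Pool.Agent.Y409.CS

open Polynomial

theorem dvd_comp (p : ℂ[X]) (a b c t : ℂ) (n : ℕ) (h : a * t + b = c)
    (hp : (X - C c) ^ n ∣ p) : (X - C t) ^ n ∣ p.comp (C a * X + C b) := by
  obtain ⟨q, hq⟩ := hp
  refine ⟨C a ^ n * q.comp (C a * X + C b), ?_⟩
  have h1 : (C a * X + C b - C c : ℂ[X]) = C a * (X - C t) := by
    rw [← h]
    simp only [map_add, map_mul]
    ring
  rw [hq, mul_comp, pow_comp, sub_comp, X_comp, C_comp, h1, mul_pow]
  ring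

theorem done : Pool.Agent.Y166.CS.S_DVD2 := by
  intro f g α β hf hg hβα h1 h2
  have hdeg : β.natDegree * α.natDegree = 1 := by
    rw [← natDegree_comp, hβα, natDegree_X]
  have hβ1 : β.natDegree = 1 := (mul_eq_one.mp hdeg).1
  have hα1 : α.natDegree = 1 := (mul_eq_one.mp hdeg).2
  obtain ⟨a, b, hα⟩ := exists_eq_X_add_C_of_natDegree_le_one hα1.le
  obtain ⟨a', b', hβ⟩ := exists_eq_X_add_C_of_natDegree_le_one hβ1.le
  have hev : ∀ t : ℂ, a' * (a * t + b) + b' = t := by
    intro t
    have h := congrArg (Polynomial.eval t) hβα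
    rw [eval_comp, hα, hβ] at h
    simpa using h
  have e0 := hev 0
  have e1 := hev 1
  have haa : a' * a = 1 := by linear_combination e1 - e0
  have hbb : a' * b + b' = 0 := by linear_combination e0
  have ha : a ≠ 0 := right_ne_zero_of_mul_eq_one haa
  have ha' : a' ≠ 0 := left_ne_zero_of_mul_eq_one haa
  have hαβ : α.comp β = X := by
    rw [hα, hβ]
    simp only [add_comp, mul_comp, C_comp, X_comp]
    have h3 : a * b' + b = 0 := by
      linear_combination a * hbb - b * haa
    calc C a * (C a' * X + C b') + C b = C (a' * a) * X + C (a * b' + b) := by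
          simp only [map_mul, map_add]; ring
      _ = X := by rw [haa, h3]; simp
  refine ⟨⟨a, b, ha, hα⟩, fun hmul => ?_⟩
  have hh0 : f.comp β ≠ 0 := by
    intro h
    have h3 : (f.comp β).comp α = f := by rw [comp_assoc, hβα, comp_X]
    rw [h, zero_comp] at h3
    exact hf h3.symm
  have hα' : ∀ y, α.eval (β.eval y) = y := by
    intro y
    rw [← eval_comp, hαβ, eval_X]
  have hm : ∀ y, rootMultiplicity y (f.comp β) = rootMultiplicity (β.eval y) f := by
    intro y
    refine le_antisymm ?_ ?_
    · rw [le_rootMultiplicity_iff hf]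
      have h3 := dvd_comp (f.comp β) a b y (β.eval y) _ (by
        have := hα' y
        rw [hα] at this
        simpa using this) ((le_rootMultiplicity_iff hh0).1 le_rfl)
      rwa [← hα, comp_assoc, hβα, comp_X] at h3
    · rw [le_rootMultiplicity_iff hh0]
      have h3 := dvd_comp f a' b' (β.eval y) y (rootMultiplicity (β.eval y) f) (by
        rw [hβ]
        simp) ((le_rootMultiplicity_iff hf).1 le_rfl)
      rwa [← hβ] at h3
  have hg0 : g ≠ 0 := hg
  have hroots : g.roots = (f.comp β).roots := by
    classical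
    ext y
    rw [count_roots, count_roots, hm]
    by_cases hy : g.eval y = 0
    · rw [hmul _ (h2 y hy), hα']
    · have hy' : f.eval (β.eval y) ≠ 0 := by
        intro h
        have := h1 _ h
        rw [hα'] at this
        exact hy this
      rw [rootMultiplicity_eq_zero hy, rootMultiplicity_eq_zero hy']
  refine ⟨a', b', g.leadingCoeff / (f.comp β).leadingCoeff, ha', ?_, ?_⟩
  · exact div_ne_zero (leadingCoeff_ne_zero.mpr hg0) (leadingCoeff_ne_zero.mpr hh0)
  · rw [← hβ]
    have e3 := (IsAlgClosed.splits g).eq_prod_roots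
    have e4 := (IsAlgClosed.splits (f.comp β)).eq_prod_roots
    have e5 : C (g.leadingCoeff / (f.comp β).leadingCoeff) * C ((f.comp β).leadingCoeff) =
        (C g.leadingCoeff : ℂ[X]) := by
      rw [← map_mul, div_mul_cancel₀ _ (leadingCoeff_ne_zero.mpr hh0)]
    calc g = C g.leadingCoeff * (g.roots.map (fun x => X - C x)).prod := e3
      _ = C (g.leadingCoeff / (f.comp β).leadingCoeff) * (C ((f.comp β).leadingCoeff) *
          ((f.comp β).roots.map (fun x => X - C x)).prod) := by
            rw [← mul_assoc, e5, hroots]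
      _ = C (g.leadingCoeff / (f.comp β).leadingCoeff) * f.comp β := by rw [← e4]

end Pool.Agent.Y409.CS
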